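import Pool.Agent.R376.NerH

/-!
# The Birch and Swinnerton-Dyer formula as a formula for the number of points of bounded height

Let `K` be a number field and `E : y² = x³ + A x + B` an elliptic curve over `K` whose Hasse-Weil
`L`-series (Mathlib's `WeierstrassCurve.LSeries`) has a continuation `F` which is meromorphic at the
points of the segment `[1, 2]`. Let `r` be the rank, `P_1, ..., P_r` a basis of `E(K)` modulo torsion,
`R = det ⟨P_i, P_j⟩` the regulator (Néron-Tate heights relative to `K`), `t` the number of torsion
points, `N(X)` the number of points `P ∈ E(K)` with `H_K(x(P)) ≤ X`, and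

`Σ_c(X) = - ∑_v ∑_{k ≥ 1} (α_v^k + β_v^k) / (k q_v^k) K(k log q_v / log X)`, `K(u) = e^{icu}/Γ(1 + u)`,

over the finite places of `K`, so that `exp Σ_c(X)` is a smooth form of the original product
`∏_v #E(k_v)/q_v` of Birch and Swinnerton-Dyer. For all `c > π/2`, without any hypothesis on the zeros
of `F`, with `m` the order and `l` the leading coefficient of `F` at `s = 1` and `V_r` the volume of the
unit ball of `ℝ^r`,

`N(X)² exp (-Σ_c(X)) ∼ V_r² e^{mΛ} (t² l / R) (log X)^{r - m}`.

So for every real `S ≠ 0` the two equations `m = r`, `l = S R / t²` hold together if and only if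

`N(X)² exp (-Σ_c(X)) → V_r² e^{rΛ} S`.

With `S = Ω |Ш| ∏ c_v / √|Δ_K|` the first is the conjecture of Birch and Swinnerton-Dyer for `E/K`
(rank and leading term), and in the second the regulator and the torsion have disappeared: the square
of the number of points of bounded height is `|Ш|` times a product of local densities.

Proof. `log F` near `1` and the contour for `1/Γ` give the law of `Σ_c` (`W187/UR`, so far not used for a
hand-in). The count is Néron's theorem, proved here for all curves over all number fields
(`R376/NerA`, `NerF`, `NerG`): approximate parallelogram law for `h_K(x(P))`, Mordell-Weil, canonical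
height, lattice points in balls, the covolume as the square root of the Gram determinant.
-/

set_option autoImplicit false

namespace Pool.Agent.Results.MP_9ab903_nt.CountingLeadingTerm

open Filter Topology Module WeierstrassCurve Height
open Pool.Agent.R376.Ner Pool.Agent.W187.UR Pool.Agent.W189.NF

/-- **The leading-term formula of Birch and Swinnerton-Dyer over number fields and the number of
points of bounded height.** -/
theorem result (K : Type) [Field K] [NumberField K] [DecidableEq K] (A B : K)
    (hΔ : 4 * A ^ 3 + 27 * B ^ 2 ≠ 0) (F : ℂ → ℂ) (hF : IsCont (cv A B) F) :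
    (∃ (r : ℕ) (p : Fin r → Pt A B), IsBasisModTors p) ∧
    (∀ P : Pt A B, Tendsto (fun n : ℕ => ht (2 ^ n • P) / 4 ^ n) atTop (𝓝 (nt P))) ∧
    ∃ (m : ℤ) (l : ℝ), meromorphicOrderAt F 1 = m ∧ meromorphicTrailingCoeffAt F 1 = l ∧ l ≠ 0 ∧
      ∀ (r : ℕ) (p : Fin r → Pt A B), IsBasisModTors p →
        0 < torsCard A B ∧ 0 < regDet p ∧ ∀ c : ℝ, Real.pi / 2 < c →
        Tendsto (fun X : ℝ => quotK A B c X / (Real.log X : ℂ) ^ ((r : ℤ) - m)) atTop
          (𝓝 (((torsCard A B * ballVol r) ^ 2 / regDet p * l : ℝ) *
            Complex.exp (m * Lam c))) ∧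
        ∀ S : ℝ, S ≠ 0 →
          ((m = r ∧ l = S * regDet p / torsCard A B ^ 2) ↔
            Tendsto (quotK A B c) atTop
              (𝓝 ((ballVol r ^ 2 * S : ℝ) * Complex.exp (r * Lam c)))) :=
  ⟨⟨_, exists_basis (fg_pt hΔ)⟩, (exists_embedK hΔ).choose_spec.choose_spec.choose_spec.2.2.2,
    nf_counting hΔ hF⟩

end Pool.Agent.Results.MP_9ab903_nt.CountingLeadingTerm
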