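import Pool.Agent.R430.T1

/-!
# The 2-part of the Birch and Swinnerton-Dyer conjecture for `y² + y = x³` over the multiquadratic
# extensions of every quadratic extension of `ℚ(√-3)` with good ramification

Call a prime of a number field good when `2` is not a cube modulo it.  Let `F = ℚ(√-3)`, let `N/F` be
a quadratic extension in which only good primes ramify (any class number), let `K/N` be a Galois
extension of exponent two in which only good primes ramify, and let `k` be any field with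
`k(√-3) = K`, for example `k = K`, or `k` a multiquadratic extension with good ramification of a
quadratic field with good ramification.  Then the 2-part of the conjecture holds for `E : y² + y = x³`
over `k`, all the terms being units at two: `L(E/k, s)` is continued, `L(E/k, 1) ≠ 0`, `E(k)` is finite
of odd order, `Ш(E/k)` has no element of order two, all the Tamagawa numbers are odd, the equation is
minimal everywhere and `L(E/k, 1) √|Δ(k)| / Ω` is a unit at every valuation of `ℂ` above `2`.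
-/

set_option autoImplicit false

namespace Pool.Agent.Results.MP_9ab903_nt.TwoPartQuadraticBase

open NumberField IsDedekindDomain Pool.Agent.Y696
open scoped Classical

/-- only primes modulo which `2` is not a cube ramify in `K/F`: if `σ ≠ 1` lies in the inertia group of
the prime `w` of `K`, then `2` is not a cube modulo the prime of `F` below `w` -/
def GoodRam (F K : Type) [Field F] [NumberField F] [Field K] [NumberField K] [Algebra F K] : Prop :=
  ∀ (w : HeightOneSpectrum (𝓞 K)) (σ : Gal(K/F)), (∀ x : 𝓞 K, σ • x - x ∈ w.asIdeal) → σ ≠ 1 →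
    ∀ α : 𝓞 F, α ^ 3 - 2 ∉ w.asIdeal.under (𝓞 F)

/-- `Φ` is an Artin map modulo the ideal `𝔪` of the Galois extension `K/F` (`F` has no real place): on
the non-zero ideals prime to `𝔪` it is multiplicative, it is trivial on the ideals `(α)` with
`α - 1 ∈ 𝔪`, `α ≠ 0`, the inertia groups of the primes of `K` not above a prime divisor of `𝔪` are
trivial, and `Φ(𝔭)` acts as a Frobenius automorphism at the primes of `K` above `𝔭`, `𝔭 ∤ 𝔪` -/
structure ArtinMap {F K : Type} [Field F] [NumberField F] [Field K] [NumberField K] [Algebra F K]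
    (𝔪 : Ideal (𝓞 F)) (Φ : Ideal (𝓞 F) → Gal(K/F)) : Prop where
  mul : ∀ I J : Ideal (𝓞 F), I ≠ ⊥ → J ≠ ⊥ → IsCoprime I 𝔪 → IsCoprime J 𝔪 → Φ (I * J) = Φ I * Φ J
  ray : ∀ α : 𝓞 F, α ≠ 0 → α - 1 ∈ 𝔪 → Φ (Ideal.span {α}) = 1
  unram : ∀ w : HeightOneSpectrum (𝓞 K), ¬ 𝔪 ≤ w.asIdeal.under (𝓞 F) →
    ∀ σ : Gal(K/F), (∀ x : 𝓞 K, σ • x - x ∈ w.asIdeal) → σ = 1
  frob : ∀ w : HeightOneSpectrum (𝓞 K), ¬ 𝔪 ≤ w.asIdeal.under (𝓞 F) → ∀ x : 𝓞 K,
    Φ (w.asIdeal.under (𝓞 F)) • x - x ^ Nat.card (𝓞 F ⧸ w.asIdeal.under (𝓞 F)) ∈ w.asIdeal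

/-- the hypothesis on `K/N`: its Galois group has exponent `2` and only good primes ramify, or it is
abelian of degree `2 ^ n` and has an Artin map modulo an ideal `𝔪 ≠ 0` with only good prime divisors -/
def Admissible (N K : Type) [Field N] [NumberField N] [Field K] [NumberField K] [Algebra N K] : Prop :=
  (GoodRam N K ∧ ∀ σ : Gal(K/N), σ * σ = 1) ∨
    ((∃ n : ℕ, Module.finrank N K = 2 ^ n) ∧ (∀ σ τ : Gal(K/N), σ * τ = τ * σ) ∧
      ∃ 𝔪 : Ideal (𝓞 N), 𝔪 ≠ ⊥ ∧
        (∀ v : HeightOneSpectrum (𝓞 N), 𝔪 ≤ v.asIdeal → ∀ α : 𝓞 N, α ^ 3 - 2 ∉ v.asIdeal) ∧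
        ∃ Φ : Ideal (𝓞 N) → Gal(K/N), ArtinMap 𝔪 Φ)

/-- **Main theorem.**  Let `F = ℚ(√-3)`, let `N/F` be a quadratic extension in which only good primes
ramify, `K/N` an admissible Galois extension and `k` a field with `k(√-3) = K`.  Then the 2-part of the
conjecture of Birch and Swinnerton-Dyer holds for `y² + y = x³` over `k`.  (The periods in terms of which
`TwoPart` is stated exist.) -/
theorem result :
    (∃ (Λ : PeriodPair) (ω : ℝ), IsPeriods Λ ω) ∧
    ∀ (F N K k : Type) [Field F] [NumberField F] [IsCyclotomicExtension {3} ℚ F]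
      [Field N] [NumberField N] [Algebra F N] [Field K] [NumberField K] [Algebra N K] [IsGalois N K]
      [Field k] [NumberField k] [Algebra k K],
      Module.finrank F N = 2 → GoodRam F N → Admissible N K →
      (∃ a : K, a ^ 2 = -3 ∧ IntermediateField.adjoin k {a} = ⊤) → TwoPart k := by
  refine ⟨?_, fun F N K k _ _ _ _ _ _ _ _ _ _ _ _ _ h2 hg hcase hk => ?_⟩
  · obtain ⟨Λ, ω, h1, h2, h3⟩ := exists_real
    exact ⟨Λ, ω, h1, h2, h3⟩
  · have hyp : Pool.Agent.R430.Hyp N K := by
      rcases hcase with ⟨h3, h4⟩ | ⟨hn, hcomm, 𝔪, h𝔪, hgood, Φ, hΦ⟩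
      · exact Or.inl ⟨h3, h4⟩
      · exact Or.inr ⟨hn, hcomm, 𝔪, h𝔪, hgood, Φ, hΦ.mul, hΦ.ray, hΦ.unram, hΦ.frob⟩
    exact Pool.Agent.R430.all_k h2 hg hyp hk

end Pool.Agent.Results.MP_9ab903_nt.TwoPartQuadraticBase
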