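import Pool.Agent.R428.N.Rk
import Pool.Agent.R428.N.Val2
import Pool.Agent.R428.OP.Disc
import Pool.Agent.R428.OP.TamK
import Pool.Agent.R428.OP.LProd
import Pool.Agent.Y44.XF.Mind
import Pool.Agent.Y17.X.Low
import Pool.Agent.Y703.CQ.Cor
import Pool.Agent.Y948.CQ.C2

/-!
# The 2-part of the strong conjecture of Birch and Swinnerton-Dyer for `X_0(14)` over imaginary quadratic
# fields, with a Tate-Shafarevich group of arbitrary large 2-rank

`E` is the modular curve `X_0(14) : y² + x y + y = x³ + 4 x - 6`, which has no complex multiplication, and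
`K = ℚ(√D)` is an imaginary quadratic field whose discriminant `D < 0` is a square modulo `7` and not
divisible by `3`, and whose ramified primes split completely in `ℚ(i, √2, √-7)` (let their number be `b`)
or are inert in `ℚ(√2)` and in `ℚ(√-7)` (let their number be `a`; it is odd); there is no restriction on
the number of the primes of either kind. Let
`z = L(E/K, 1) √|disc K| #E(K)_tors² / (Ω ∏ c_v)`, which is zero or the order of `Ш(E/K)` according to
the conjecture. With no hypothesis on the rank or on `Ш` we prove, for all these `K`: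
* the equation of `E` is minimal at all the finite places of `K`, `L(E/K, s)` is entire, `∏ c_v` and
  `#E(K)_tors` are twice an odd number;
* `2 ^ rank E(K) * #Ш(E/K)[2] = 2 ^ (a + 2 b - 1)`;
* `z = u * 2 ^ (a + 2 b - 1) * y²` with a rational number `u`, which is a unit at two, and an integer `y`,
  which is odd if and only if the matrix `R D` over `𝔽₂` of the quadratic residue symbols is not singular;
* if it is not singular, then `E(K)` is finite, `L(E/K, 1) ≠ 0`, `Ш(E/K)[2^∞] = Ш(E/K)[2]` is a vector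
  space over `𝔽₂` of dimension `a + 2 b - 1`, and its order is the 2-part of `z`: the 2-part of the
  conjecture. If it is singular, then this is false.
* The proportion of the `K` for which this is so is exactly `c = ∏_{i ≥ 0} (1 - 2^{-(2 i + 1)}) = 0.4194…`
  among the `K` of the class, ordered by the discriminant, and the number of these `K` with `|D| ≤ X` is at
  least a positive constant times `X (log X)^(-5/8)`; for every `k` there are infinitely many of them with
  `Ш(E/K)[2^∞]` of order `4 ^ k`.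

Proof. The rank and the order of `Ш(E/K)[2]` are computed by an explicit 2-descent over `K` and the field
`K(√-7)` of the points of order two (`Pool/Agent/R428/N`): the classes of order two that are locally trivial
are given by the divisors of `D` in `ℤ[(1 + √-7)/2]`. The exponent of `Ш(E/K)[2^∞]` is bounded by the
comparison with the groups of `E` and `E_D` over `ℚ`, which have no element of order two. The central value
`L(E/K, 1) = L(E, 1) L(E_D, 1)` is known up to units at two by Gross's formula over `ℚ` (see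
`TwoPartTwistsX14` of `MP_4a9ea6_nt` and the library of many helpers that is used there).
-/

set_option autoImplicit false
set_option linter.style.haveILetI false

open NumberField IsDedekindDomain WeierstrassCurve MeasureTheory Filter Topology Module

namespace Pool.Agent.Results.MP_9ab903_nt.TwoPartX14Imaginary

open scoped Classical

open Pool.Agent.TH841.NF.D (Sha)

/-- The curve given by the equation of `W` over the ring `R`. -/
abbrev base (W : WeierstrassCurve ℤ) (R : Type) [CommRing R] : WeierstrassCurve R :=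
  W.map (Int.castRingHom R)

/-- The number of the affine points `(x, y)` over the ring `R`. -/
noncomputable def pts (W : WeierstrassCurve ℤ) (R : Type) [CommRing R] : ℕ :=
  Nat.card {P : R × R // (base W R).toAffine.Equation P.1 P.2}

section

variable {K : Type} [Field K] [NumberField K]

/-- `a_v = N v + 1 - #W(k_v)`, the points over the residue field `k_v` counted with the point at
infinity. -/
noncomputable def a (W : WeierstrassCurve ℤ) (v : HeightOneSpectrum (𝓞 K)) : ℤ :=
  (Ideal.absNorm v.asIdeal : ℤ) - pts W (𝓞 K ⧸ v.asIdeal)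

/-- The Euler factor of `L(W/K, s)` at `v` : `(1 - a_v N v^(-s) + N v^(1 - 2 s))⁻¹` if the
discriminant is a unit at `v`, and `(1 - a_v N v^(-s))⁻¹` otherwise. -/
noncomputable def factor (W : WeierstrassCurve ℤ) (s : ℂ) (v : HeightOneSpectrum (𝓞 K)) : ℂ :=
  (1 - (a W v : ℂ) * (Ideal.absNorm v.asIdeal : ℂ) ^ (-s) +
    if ((W.Δ : ℤ) : 𝓞 K) ∈ v.asIdeal then 0 else (Ideal.absNorm v.asIdeal : ℂ) ^ (1 - 2 * s))⁻¹

/-- The equation is minimal at the finite place `v` of `K`: no change of variables over `K` that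
keeps the coefficients integral at `v` decreases the valuation of the discriminant. -/
def MinimalAt (W : WeierstrassCurve ℤ) (v : HeightOneSpectrum (𝓞 K)) : Prop :=
  ∀ C : VariableChange K, v.valuation K (C • base W K).a₁ ≤ 1 →
    v.valuation K (C • base W K).a₂ ≤ 1 → v.valuation K (C • base W K).a₃ ≤ 1 →
    v.valuation K (C • base W K).a₄ ≤ 1 → v.valuation K (C • base W K).a₆ ≤ 1 →
    v.valuation K (C • base W K).Δ ≤ v.valuation K (base W K).Δ

/-- `E⁰(K_v)`, the group of the points of `W` over the completion `K_v` with nonsingular reduction: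
the points `(x, y)` where `x` is not integral, or one of the partial derivatives of
`y² + a₁ x y + a₃ y - x³ - a₂ x² - a₄ x - a₆` is a unit at `(x, y)`, and the point at infinity. -/
noncomputable def nonsing (W : WeierstrassCurve ℤ) (v : HeightOneSpectrum (𝓞 K)) :
    AddSubgroup (base W (v.adicCompletion K)).toAffine.Point :=
  AddSubgroup.closure {P | ∀ x y h, P = Affine.Point.some x y h →
    1 < Valued.v x ∨ Valued.v (W.a₁ * y - (3 * x ^ 2 + 2 * W.a₂ * x + W.a₄)) = 1 ∨
      Valued.v (2 * y + W.a₁ * x + W.a₃) = 1}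

/-- The Tamagawa number `c_v = [E(K_v) : E⁰(K_v)]` of a minimal equation. -/
noncomputable def c (W : WeierstrassCurve ℤ) (v : HeightOneSpectrum (𝓞 K)) : ℕ :=
  (nonsing W v).index

end

section

variable (K : Type) [Field K] [NumberField K]

/-- The product of the Tamagawa numbers. -/
noncomputable def Tam (W : WeierstrassCurve ℤ) : ℕ := ∏ᶠ v : HeightOneSpectrum (𝓞 K), c W v

/-- The order of the torsion subgroup of `W(K)`. -/
noncomputable def torsOrder (W : WeierstrassCurve ℤ) : ℕ :=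
  Nat.card (AddCommGroup.torsion (base W K).toAffine.Point)

/-- The 2-primary part of the Tate-Shafarevich group over `K`. -/
noncomputable abbrev Sha2 (W : WeierstrassCurve ℤ) : AddSubgroup (Sha (base W K)) :=
  AddCommGroup.primaryComponent (Sha (base W K)) 2

/-- `L` is the L-function of the minimal equation `W` over `K`: it is entire and it is given by the
Euler product for `Re s > 3/2`. -/
def IsL (W : WeierstrassCurve ℤ) (L : ℂ → ℂ) : Prop :=
  Differentiable ℂ L ∧ ∀ s : ℂ, 3 / 2 < s.re → HasProd (factor (K := K) W s) (L s)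

end

/-- `Λ` is the lattice of periods of the differential `dx / (2y + a₁x + a₃)` of the complex curve `W`. -/
def IsPeriodLattice (W : WeierstrassCurve ℤ) (Λ : PeriodPair) : Prop :=
  Λ.g₂ = (W.c₄ : ℂ) / 12 ∧ Λ.g₃ = (W.c₆ : ℂ) / 216

/-- Twice the area of a fundamental parallelogram of the lattice. -/
noncomputable def period (Λ : PeriodPair) : ℝ := 2 * |((starRingEnd ℂ) Λ.ω₁ * Λ.ω₂).im|

/-- The order of the Tate-Shafarevich group predicted by the formula in rank zero for the curve `W` over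
an imaginary quadratic field `K`, for the value `l` of the L-function at `s = 1`:
`l √|disc K| #W(K)_tors² / (Ω ∏ c_v)`. -/
noncomputable def anOrder (K : Type) [Field K] [NumberField K] (W : WeierstrassCurve ℤ) (l : ℂ)
    (Λ : PeriodPair) : ℂ :=
  l * (Real.sqrt |(discr K : ℝ)| : ℝ) * (torsOrder K W : ℂ) ^ 2 /
    ((period Λ : ℂ) * (Tam K W : ℂ))

/-- The 2-part of the strong conjecture of Birch and Swinnerton-Dyer for the curve `W` over an imaginary
quadratic field `K`, in the case that the rank is zero and `Ш[2^∞]` is a vector space of dimension `m`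
over the field with two elements: the equation `W` is minimal at all the finite places, `W(K)` is finite,
`Ш(W/K)[2^∞]` is killed by two and has order `2 ^ m`, `L(W/K, s)` is entire, `L(W/K, 1) ≠ 0`, and the
predicted order of `Ш` is a rational number with 2-adic valuation `m`. -/
def TwoPart (K : Type) [Field K] [NumberField K] (W : WeierstrassCurve ℤ) (m : ℕ) : Prop :=
  (∀ v : HeightOneSpectrum (𝓞 K), MinimalAt W v) ∧ Finite (base W K).toAffine.Point ∧
  (∀ x : Sha2 K W, 2 • x = 0) ∧ Nat.card (Sha2 K W) = 2 ^ m ∧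
  {v : HeightOneSpectrum (𝓞 K) | c W v ≠ 1}.Finite ∧ 0 < Tam K W ∧ 0 < torsOrder K W ∧
  ∃ (L : ℂ → ℂ) (z : ℚ), IsL K W L ∧ L 1 ≠ 0 ∧ (∃ Λ : PeriodPair, IsPeriodLattice W Λ) ∧
    (∀ Λ : PeriodPair, IsPeriodLattice W Λ → 0 < period Λ ∧ anOrder K W (L 1) Λ = z) ∧
    z ≠ 0 ∧ padicValRat 2 z = m

/-- The modular curve `X_0(14)`. -/
def X14 : WeierstrassCurve ℤ := ⟨1, 0, 1, 4, -6⟩

/-- `K` is the quadratic field `ℚ(√D)`. -/
def IsQuad (D : ℤ) (K : Type) [Field K] [NumberField K] : Prop :=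
  finrank ℚ K = 2 ∧ ∃ d : K, d ^ 2 = ((D : ℤ) : K)

/-! ### The class of the fields -/

/-- primes which split completely in `ℚ(i, √2, √-7)` -/
def Split (p : ℕ) : Prop := p.Prime ∧ p % 8 = 1 ∧ (p % 7 = 1 ∨ p % 7 = 2 ∨ p % 7 = 4)

/-- primes inert in `ℚ(√2)` and in `ℚ(√-7)` -/
def Inert (q : ℕ) : Prop :=
  q.Prime ∧ (q % 8 = 3 ∨ q % 8 = 5) ∧ (q % 7 = 3 ∨ q % 7 = 5 ∨ q % 7 = 6)

/-- The class of the discriminants `D < 0`. -/
def Adm (D : ℤ) : Prop := D < 0 ∧ Squarefree D ∧ D % 4 = 1 ∧ (D % 7 = 1 ∨ D % 7 = 2 ∨ D % 7 = 4) ∧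
  ∀ p : ℕ, p.Prime → (p : ℤ) ∣ D → p ≠ 3 ∧ (Split p ∨ Inert p)

/-- the prime factors `≡ 1 mod 8` of `D` -/
def S (D : ℤ) : Finset ℕ := D.natAbs.primeFactors.filter fun p => p % 8 = 1

/-- `a + 2 b - 1`, for the numbers `a`, `b` of the inert and of the split prime factors of `D`. -/
def dim (D : ℤ) : ℕ := (D.natAbs.primeFactors \ S D).card + 2 * (S D).card - 1

/-- The matrix over `𝔽₂` with rows and columns indexed by `S D`: off the diagonal the entry at `(p, p')`
is `1` if `p'` is not a square modulo `p` and `0` otherwise; on the diagonal it is the number of the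
prime factors of `D` different from `p` which are not squares modulo `p`, plus `1` if the number of the
points of `X_0(14)` modulo `p` is not divisible by `8`. -/
noncomputable def R (D : ℤ) : Matrix (S D) (S D) (ZMod 2) := Matrix.of fun i j =>
  if i = j then
    (((D.natAbs.primeFactors.filter fun r : ℕ => r ≠ (i : ℕ) ∧
      ¬ IsSquare (r : ZMod (i : ℕ))).card : ZMod 2) +
        if 8 ∣ pts X14 (ZMod (i : ℕ)) + 1 then 0 else 1)
  else if IsSquare (((j : ℕ)) : ZMod (i : ℕ)) then 0 else 1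

/-- The statement for all the fields `K = ℚ(√D)` of the class. -/
def Criterion (D : ℤ) (K : Type) [Field K] [NumberField K] : Prop :=
  (∀ v : HeightOneSpectrum (𝓞 K), MinimalAt X14 v) ∧
  {v : HeightOneSpectrum (𝓞 K) | c X14 v ≠ 1}.Finite ∧
  (∃ t : ℕ, Odd t ∧ Tam K X14 = 2 * t) ∧ (∃ t : ℕ, Odd t ∧ torsOrder K X14 = 2 * t) ∧
  AddGroup.FG (base X14 K).toAffine.Point ∧
  2 ^ finrank ℤ (base X14 K).toAffine.Point *
    Nat.card {x : Sha (base X14 K) // 2 • x = 0} = 2 ^ dim D ∧
  (∃ (L : ℂ → ℂ) (u : ℚ) (y : ℤ), IsL K X14 L ∧ u ≠ 0 ∧ padicValRat 2 u = 0 ∧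
    (∃ Λ : PeriodPair, IsPeriodLattice X14 Λ) ∧
    (∀ Λ : PeriodPair, IsPeriodLattice X14 Λ → 0 < period Λ ∧
      anOrder K X14 (L 1) Λ = ((u * 2 ^ dim D * (y : ℚ) ^ 2 : ℚ) : ℂ)) ∧
    (Odd y ↔ (R D).det ≠ 0)) ∧
  ((R D).det ≠ 0 ↔ TwoPart K X14 (dim D))

/-- The 2-part of the conjecture for `X_0(14)` over `ℚ(√D)`. -/
def Proved (D : ℤ) : Prop :=
  ∀ (K : Type) [Field K] [NumberField K], IsQuad D K → TwoPart K X14 (dim D)

/-- the number of the integers `D` with `|D| ≤ X` and `Q D` -/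
noncomputable def count (Q : ℤ → Prop) (X : ℕ) : ℕ := Nat.card {D : ℤ // |D| ≤ X ∧ Q D}

/-- `c = ∏_{i ≥ 0} (1 - 2^{-(2 i + 1)})` -/
noncomputable def cc : ℝ := ∏' i : ℕ, (1 - (1 / 2 : ℝ) ^ (2 * i + 1))

section proof

open Pool.Agent.R428.N (dd_of tors_K fin_iff sha_rank fg_EE rank_fin coords exists_K alg_exp val_prod
  area D_nsq)
open Pool.Agent.R428.OP (Quad Eul)
open Pool.Agent.Y687.MQ (AdmD matD of_admD SP IP disc matD_eq matT_iff det_ind union_SP)
open Pool.Agent.Y700 (WM EQ)

lemma adm_iff (D : ℤ) : Adm D ↔ (D < 0 ∧ AdmD D) := Iff.rfl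

lemma X14_eq : X14 = WM 1 := rfl

lemma card_IP (D : ℤ) : D.natAbs.primeFactors \ S D = IP D := by
  ext p
  unfold S IP
  rw [Finset.mem_sdiff, Finset.mem_filter, Finset.mem_filter]
  tauto

lemma dim_eq {D : ℤ} (h : AdmD D) (hneg : D < 0) :
    dim D + 1 = (IP D).card + 2 * (SP D).card := by
  obtain ⟨-, hodd⟩ := dd_of h hneg
  have h1 := hodd.pos
  have h2 : (S D).card = (SP D).card := rfl
  unfold dim
  rw [card_IP, h2]
  omega

lemma R_eq {D : ℤ} (hD : AdmD D) : R D = matD D := by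
  have hS := (of_admD hD).1
  unfold R matD
  ext i j
  simp only [Matrix.of_apply]
  have hi := hS i.1 i.2
  have h8 := hi.2.1
  have h7 := hi.2.2
  have e : pts X14 (ZMod (i : ℕ)) + 1 = Pool.Agent.Y687.NN 1 (i : ℕ) := by
    have h1 := Pool.Agent.Z705.cnt_affCountZ (D := 1) hi.1 (by omega) (by omega) (by norm_num) (by
      intro h
      rw [Int.natAbs_one, Nat.dvd_one] at h
      exact hi.1.one_lt.ne' h)
    unfold Pool.Agent.Y687.NN
    rw [Nat.cast_one, h1]
    rfl
  rw [e]
  rfl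

lemma R_det {D : ℤ} (hD : AdmD D) : (R D).det ≠ 0 ↔ (matD D).det ≠ 0 := by
  rw [R_eq hD]
  exact Iff.rfl

/-- the algebraic criterion over `ℚ` -/
lemma noSel_iff {D : ℤ} (h : AdmD D) (h1 : D ≠ 1) : (Finite (EQ (WM D)).toAffine.Point ∧
    ∀ x : Pool.Agent.TH841.SH.D.Sha (EQ (WM D)), x + x = 0 → x = 0) ↔ (matD D).det ≠ 0 := by
  rw [← Pool.Agent.Y17.X.twoP_iff h h1]
  constructor
  · rintro ⟨h2, h3⟩
    exact Pool.Agent.Y17.X.twoP_of h h1 h2 fun x hx => h3 x (by rwa [two_nsmul] at hx)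
  · rintro ⟨-, h2, h3, -⟩
    exact ⟨h2, fun x hx => h3 1 x (by rwa [pow_one, two_nsmul])⟩

lemma IsL.unique {K : Type} [Field K] [NumberField K] {W : WeierstrassCurve ℤ} {f g : ℂ → ℂ}
    (hf : IsL K W f) (hg : IsL K W g) : f = g := by
  have hfa : AnalyticOnNhd ℂ f Set.univ := fun z _ => hf.1.analyticAt z
  have hga : AnalyticOnNhd ℂ g Set.univ := fun z _ => hg.1.analyticAt z
  have heq : f =ᶠ[nhds (2 : ℂ)] g := by
    have hopen : IsOpen {s : ℂ | (3 : ℝ) / 2 < s.re} := isOpen_lt continuous_const Complex.continuous_re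
    filter_upwards [hopen.mem_nhds (show (3 : ℝ) / 2 < (2 : ℂ).re by norm_num)] with s hs
    exact (hf.2 s hs).unique (hg.2 s hs)
  exact hfa.eq_of_eventuallyEq hga heq

lemma c_eq {K : Type} [Field K] [NumberField K] (v : HeightOneSpectrum (𝓞 K)) :
    c X14 v = Pool.Agent.Y682.XF.c (WM 1) v := rfl

lemma val_pow (u : ℚ) (hu : u ≠ 0) (h : padicValRat 2 u = 0) (m : ℕ) {y : ℤ} (hy : y ≠ 0) :
    padicValRat 2 (u * 2 ^ m * (y : ℚ) ^ 2) = m + 2 * padicValInt 2 y := by
  have : Fact (Nat.Prime 2) := ⟨Nat.prime_two⟩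
  have hyq : (y : ℚ) ≠ 0 := by exact_mod_cast hy
  have h2 : (2 : ℚ) ^ m ≠ 0 := pow_ne_zero m two_ne_zero
  rw [padicValRat.mul (mul_ne_zero hu h2) (pow_ne_zero 2 hyq), padicValRat.mul hu h2, h,
    padicValRat.pow, padicValRat.pow, padicValRat.of_int]
  have : padicValRat 2 (2 : ℚ) = 1 := by
    have := padicValRat.self (p := 2) (by norm_num)
    exact_mod_cast this
  rw [this]
  push_cast
  ring

/-- the criterion -/
theorem criterion {D : ℤ} (hA : Adm D) (K : Type) [Field K] [NumberField K] (hQ : IsQuad D K) :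
    Criterion D K := by
  obtain ⟨hneg, h⟩ := (adm_iff D).1 hA
  obtain ⟨h2, d, hd⟩ := hQ
  obtain ⟨hDD, hodd⟩ := dd_of h hneg
  have h4 := h.2.1
  have h1 : D ≠ 1 := by omega
  have hK := coords hd h2 (D_nsq hDD)
  have h14 : (D.natAbs).Coprime 14 := by
    rw [show (14 : ℕ) = 2 * 7 from rfl]
    refine Nat.Coprime.mul_right ?_ ?_
    · rw [Nat.coprime_comm, Nat.Prime.coprime_iff_not_dvd Nat.prime_two]
      omega
    · rw [Nat.coprime_comm, Nat.Prime.coprime_iff_not_dvd (by norm_num)]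
      intro h7
      have := h.2.2.1
      omega
  have hq : Quad D K d := ⟨h.1, h4, h14, h1, hd, hK⟩
  have hdisc : discr K = D := Pool.Agent.R428.OP.disc D K d hq
  obtain ⟨hcf, t', ht', htam⟩ := Pool.Agent.R428.OP.tamk D K d hq hDD.m8 hDD.sev
  obtain ⟨k', hk', htor⟩ := tors_K hd hK h hneg
  have hmin : ∀ v : HeightOneSpectrum (𝓞 K), MinimalAt X14 v := by
    intro v
    refine Pool.Agent.Y44.XF.s_mind 1 squarefree_one (by norm_num) (by norm_num) K ?_ v
    intro p hp hp1
    exfalso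
    have h3 := Int.le_of_dvd one_pos hp1
    have := hp.two_le
    omega
  have htam' : Tam K X14 = 2 * t' := htam
  have htor' : torsOrder K X14 = 2 * k' := htor
  have hdim := dim_eq h hneg
  have hrank : 2 ^ finrank ℤ (base X14 K).toAffine.Point *
      Nat.card {x : Sha (base X14 K) // 2 • x = 0} = 2 ^ dim D := by
    have h3 := sha_rank hd hK h hneg
    rw [← hdim, pow_succ, mul_comm (2 ^ dim D)] at h3
    have h5 : Nat.card {x : Sha (base X14 K) // 2 • x = 0} =
        Nat.card {x : Sha (base X14 K) // x + x = 0} :=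
      Nat.card_congr (Equiv.subtypeEquivRight fun x => by rw [two_nsmul])
    rw [h5]
    exact Nat.eq_of_mul_eq_mul_left two_pos h3
  obtain ⟨Op, Om, L0, hOp, hOm, g2, g3, hLt, f1, fD, hf1, hfD, y, u, hu0, hu, hy, hyne, hval⟩ :=
    val_prod h hneg
  have c4 : (((X14).c₄ : ℤ) : ℂ) / 12 = -215 / 12 := by
    have : (X14).c₄ = -215 := by decide
    rw [this]; norm_num
  have c6 : (((X14).c₆ : ℤ) : ℂ) / 216 = 5291 / 216 := by
    have : (X14).c₆ = 5291 := by decide
    rw [this]; norm_num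
  have hper : ∀ Λ : PeriodPair, IsPeriodLattice X14 Λ → period Λ = 4 * (Op * Om) := by
    rintro Λ ⟨e1, e2⟩
    exact area hOp hOm hLt (by rw [e1, c4, g2]) (by rw [e2, c6, g3])
  have hIsL : IsL K X14 (fun s => f1 s * fD s) := by
    refine ⟨hf1.1.mul hfD.1, fun s hs => ?_⟩
    exact Pool.Agent.R428.OP.lprod D K d hq s _ _ hs (hf1.2 s hs) (hfD.2 s hs)
  obtain ⟨u', hu', hu0', huv'⟩ : ∃ u' : ℚ, u' = u * (k' * k' * (t' : ℚ)⁻¹) ∧ u' ≠ 0 ∧
      padicValRat 2 u' = 0 := by
    have h5 := Pool.Agent.R428.N.unit_mul ⟨hu0, hu⟩ (Pool.Agent.R428.N.unit_mul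
      (Pool.Agent.R428.N.unit_mul (Pool.Agent.R428.N.unit_nat hk') (Pool.Agent.R428.N.unit_nat hk'))
      (Pool.Agent.R428.N.unit_inv (Pool.Agent.R428.N.unit_nat ht')))
    exact ⟨_, rfl, h5.1, h5.2⟩
  have ht0 : (t' : ℂ) ≠ 0 := by exact_mod_cast ht'.pos.ne'
  have han : ∀ Λ : PeriodPair, IsPeriodLattice X14 Λ → 0 < period Λ ∧
      anOrder K X14 (f1 1 * fD 1) Λ = ((u' * 2 ^ dim D * (y : ℚ) ^ 2 : ℚ) : ℂ) := by
    intro Λ hΛ
    have e1 := hper Λ hΛ
    refine ⟨by rw [e1]; positivity, ?_⟩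
    unfold anOrder
    rw [e1, hdisc, htor', htam', hval, ← hdim, hu']
    have o1 : (Op : ℂ) ≠ 0 := by exact_mod_cast hOp.ne'
    have o2 : (Om : ℂ) ≠ 0 := by exact_mod_cast hOm.ne'
    push_cast
    rw [pow_succ]
    field_simp
    ring
  have hyd : Odd y ↔ (R D).det ≠ 0 := by rw [hy, noSel_iff h h1, R_det h]
  have hex : ∃ Λ : PeriodPair, IsPeriodLattice X14 Λ := ⟨L0, by rw [g2, c4], by rw [g3, c6]⟩
  refine ⟨hmin, hcf, ⟨t', ht', htam'⟩, ⟨k', hk', htor'⟩, fg_EE K, hrank,
    ⟨_, u', y, hIsL, hu0', huv', hex, han, hyd⟩, ?_, ?_⟩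
  · intro hdet
    have hyo := hyd.2 hdet
    obtain ⟨hfQ, hsQ⟩ := hy.1 hyo
    have hy0 : y ≠ 0 := by
      rintro rfl
      exact absurd hyo (by decide)
    have hfin : Finite (base X14 K).toAffine.Point := (fin_iff hd hK h hneg).2 hfQ
    have hcard : Nat.card {x : Sha (base X14 K) // 2 • x = 0} = 2 ^ dim D := by
      have h3 := hrank
      rw [rank_fin, pow_zero, one_mul] at h3
      exact h3
    have hexp : ∀ (x : Sha (base X14 K)) (n : ℕ), 2 ^ n • x = 0 → x + x = 0 := fun x n hx =>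
      alg_exp hd hK h4 hsQ x n hx
    have hmem : ∀ x : Sha (base X14 K), x ∈ Sha2 K X14 ↔ 2 • x = 0 := by
      intro x
      constructor
      · rintro ⟨n, hn⟩
        rw [two_nsmul]
        exact hexp x n hn
      · intro hx
        exact ⟨1, by rw [pow_one]; exact hx⟩
    have hS2 : Nat.card (Sha2 K X14) = 2 ^ dim D := by
      rw [← hcard]
      exact Nat.card_congr (Equiv.subtypeEquivRight hmem)
    have hyv : padicValInt 2 y = 0 := by
      refine padicValInt.eq_zero_of_not_dvd ?_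
      intro hdv
      have h5 := Int.odd_iff.1 hyo
      omega
    refine ⟨hmin, hfin, fun x => Subtype.ext ((hmem x.1).1 x.2), hS2, hcf, ?_, ?_,
      fun s => f1 s * fD s, u' * 2 ^ dim D * (y : ℚ) ^ 2, hIsL, hyne hy0, hex, han, ?_, ?_⟩
    · rw [htam']
      exact Nat.mul_pos two_pos ht'.pos
    · rw [htor']
      exact Nat.mul_pos two_pos hk'.pos
    · exact mul_ne_zero (mul_ne_zero hu0' (pow_ne_zero _ two_ne_zero))
        (pow_ne_zero 2 (by exact_mod_cast hy0))
    · rw [val_pow u' hu0' huv' _ hy0, hyv]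
      norm_num
  · rintro ⟨-, -, -, -, -, -, -, L', z, hL', -, -, hz, hz0, hzv⟩
    rw [← hyd]
    obtain ⟨Λ, hΛ⟩ := hex
    have e1 := (hz Λ hΛ).2
    rw [IsL.unique hL' hIsL, (han Λ hΛ).2] at e1
    have e2 : u' * 2 ^ dim D * (y : ℚ) ^ 2 = z := by exact_mod_cast e1
    have hy0 : y ≠ 0 := by
      rintro rfl
      apply hz0
      rw [← e2]
      simp
    have e3 := val_pow u' hu0' huv' (dim D) hy0
    rw [e2, hzv] at e3
    have e4 : padicValInt 2 y = 0 := by
      have : (2 : ℤ) * (padicValInt 2 y : ℤ) = 0 := by linarith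
      have h6 : (padicValInt 2 y : ℤ) = 0 := by linarith
      exact_mod_cast h6
    rw [← Int.not_even_iff_odd]
    intro he
    have h7 : ¬ (2 : ℤ) ∣ y := by
      intro hdv
      have : Fact (Nat.Prime 2) := ⟨Nat.prime_two⟩
      have h8 := (padicValInt_dvd_iff (p := 2) 1 y).1 (by
        rw [Nat.cast_ofNat, pow_one]; exact hdv)
      rcases h8 with h8 | h8
      · exact hy0 h8
      · rw [e4] at h8
        omega
    exact h7 he.two_dvd

lemma proved_iff {D : ℤ} (hA : Adm D) : Proved D ↔ (matD D).det ≠ 0 := by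
  obtain ⟨hneg, h⟩ := (adm_iff D).1 hA
  rw [← R_det h]
  constructor
  · intro hP
    obtain ⟨K, i1, i2, d, hd, h2⟩ := exists_K D (D_nsq (dd_of h hneg).1)
    have hQ : IsQuad D K := ⟨h2, d, hd⟩
    exact (criterion hA K hQ).2.2.2.2.2.2.2.2 (hP K hQ)
  · intro hdet K _ _ hQ
    exact (criterion hA K hQ).2.2.2.2.2.2.2.1 hdet

/-- many primes -/
lemma primes56 (n : ℕ) : ∀ N : ℕ, ∃ T : Finset ℕ, T.card = n ∧
    ∀ q ∈ T, q.Prime ∧ q % 56 = 3 ∧ N < q := by
  induction n with
  | zero => exact fun N => ⟨∅, rfl, fun q hq => absurd hq (Finset.notMem_empty q)⟩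
  | succ n ih =>
    intro N
    obtain ⟨T, hT, h1⟩ := ih N
    have hu : IsUnit (3 : ZMod 56) := by
      have := (ZMod.isUnit_iff_coprime 3 56).2 (by norm_num)
      exact_mod_cast this
    obtain ⟨p, hp, hpp, hp3⟩ := Nat.forall_exists_prime_gt_and_eq_mod hu (max N (T.sup id))
    have hpm : p % 56 = 3 := by
      have h2 : ((p : ℕ) : ZMod 56) = ((3 : ℕ) : ZMod 56) := by rw [hp3]; rfl
      rw [ZMod.natCast_eq_natCast_iff'] at h2
      exact h2
    have hpT : p ∉ T := by
      intro hm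
      have h3 : p ≤ T.sup id := Finset.le_sup (f := id) hm
      have := le_max_right N (T.sup id)
      omega
    refine ⟨insert p T, by rw [Finset.card_insert_of_notMem hpT, hT], fun q hq => ?_⟩
    rcases Finset.mem_insert.1 hq with rfl | hq
    · exact ⟨hpp, hpm, lt_of_le_of_lt (le_max_left _ _) hp⟩
    · exact h1 q hq

lemma pow_mod (k : ℕ) : 3 ^ (2 * k + 1) % 56 = 3 ∨ 3 ^ (2 * k + 1) % 56 = 27 ∨
    3 ^ (2 * k + 1) % 56 = 19 := by
  induction k with
  | zero => left; norm_num
  | succ k ih =>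
    have e : 3 ^ (2 * (k + 1) + 1) = 3 ^ (2 * k + 1) * 9 := by ring
    rw [e, Nat.mul_mod]
    rcases ih with h | h | h <;> rw [h] <;> norm_num

lemma infinite_k (k : ℕ) : {D : ℤ | Adm D ∧ dim D = 2 * k ∧ Proved D}.Infinite := by
  refine Set.infinite_of_forall_exists_lt fun a => ?_
  obtain ⟨T, hT, h1⟩ := primes56 (2 * k + 1) (max 3 a.natAbs)
  obtain ⟨n, hn⟩ : ∃ n, n = ∏ q ∈ T, q := ⟨_, rfl⟩
  have hpr : ∀ q ∈ T, q.Prime := fun q hq => (h1 q hq).1
  have hpf : n.primeFactors = T := by rw [hn]; exact Nat.primeFactors_prod hpr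
  have hsq : Squarefree n := by rw [hn]; exact Pool.Agent.Z700.pr_sqf hpr
  have hmod : n % 56 = 3 ^ (2 * k + 1) % 56 := by
    rw [hn, Finset.prod_nat_mod, Finset.prod_congr rfl (fun q hq => (h1 q hq).2.1),
      Finset.prod_const, hT]
  have hm := pow_mod k
  rw [← hmod] at hm
  have hgt : a.natAbs < n := by
    obtain ⟨q, hq⟩ : T.Nonempty := Finset.card_pos.1 (by omega)
    have h3 : q ∣ n := by rw [hn]; exact Finset.dvd_prod_of_mem (f := fun x => x) hq
    have h4 := Nat.le_of_dvd (Nat.pos_of_ne_zero hsq.ne_zero) h3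
    have h5 := (h1 q hq).2.2
    have h6 := le_max_right 3 a.natAbs
    omega
  have hD : (-(n : ℤ)).natAbs = n := by simp
  have hA : Adm (-(n : ℤ)) := by
    refine ⟨by omega, ?_, by omega, by omega, ?_⟩
    · rw [← Int.squarefree_natAbs, hD]
      exact hsq
    · intro p hp hpd
      have hpn : p ∣ n := by
        have := Int.natAbs_dvd_natAbs.2 hpd
        rwa [hD, Int.natAbs_natCast] at this
      have hpT : p ∈ T := by
        rw [← hpf, Nat.mem_primeFactors]
        exact ⟨hp, hpn, hsq.ne_zero⟩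
      obtain ⟨-, h3, h4⟩ := h1 p hpT
      have h5 := le_max_left 3 a.natAbs
      exact ⟨by omega, Or.inr ⟨hp, by omega, by omega⟩⟩
  have hS : SP (-(n : ℤ)) = ∅ := by
    unfold SP
    rw [hD, hpf, Finset.filter_eq_empty_iff]
    intro q hq
    have := (h1 q hq).2.1
    omega
  have hI : IP (-(n : ℤ)) = T := by
    unfold IP
    rw [hD, hpf, Finset.filter_eq_self]
    intro q hq
    have := (h1 q hq).2.1
    omega
  refine ⟨-(n : ℤ), ⟨hA, ?_, ?_⟩, by omega⟩
  · have := dim_eq hA.2 hA.1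
    rw [hS, hI, hT, Finset.card_empty] at this
    omega
  · rw [proved_iff hA]
    haveI : IsEmpty (SP (-(n : ℤ))) := by rw [hS]; infer_instance
    rw [Matrix.det_isEmpty]
    exact one_ne_zero

lemma count_eq {Q : ℤ → Prop} (X : ℕ) (hQ : ∀ D, Adm D → (Q D ↔ Proved D)) :
    Pool.Agent.Y17.X.count (fun D => AdmD D ∧ 0 < -1 * D ∧ Q D) X =
      count (fun D => Adm D ∧ Proved D) X := by
  unfold Pool.Agent.Y17.X.count count
  refine Nat.card_congr (Equiv.subtypeEquivRight fun D => and_congr_right fun _ => ?_)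
  constructor
  · rintro ⟨h1, h2, h3⟩
    have hA : Adm D := ⟨by omega, h1⟩
    exact ⟨hA, (hQ D hA).1 h3⟩
  · rintro ⟨hA, h3⟩
    refine ⟨hA.2, ?_, (hQ D hA).2 h3⟩
    have := hA.1
    omega

lemma count_eq' (X : ℕ) : Pool.Agent.Y17.X.count (fun D => AdmD D ∧ 0 < -1 * D) X =
    count Adm X := by
  unfold Pool.Agent.Y17.X.count count
  refine Nat.card_congr (Equiv.subtypeEquivRight fun D => and_congr_right fun _ => ?_)
  constructor
  · rintro ⟨h1, h2⟩
    exact ⟨by omega, h1⟩
  · rintro hA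
    refine ⟨hA.2, ?_⟩
    have := hA.1
    omega

end proof

/-- **Main theorem.** The statement `Criterion D K` holds for all the imaginary quadratic fields
`K = ℚ(√D)` of the class. The proportion of the `D` such that the 2-part of the conjecture `TwoPart` holds
for `X_0(14)` over `ℚ(√D)`, with `Ш[2^∞]` of dimension `a + 2 b - 1` over the field with two elements, is
exactly `c = 0.419…` in the class, ordered by `|D|`, and the number of these `D` with `|D| ≤ X` is at least
a positive constant times `X (log X)^(-5/8)`. For every `k` there are infinitely many of these `D` with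
`a + 2 b - 1 = 2 k`. -/
theorem result :
    (∀ D : ℤ, Adm D → ∀ (K : Type) [Field K] [NumberField K], IsQuad D K → Criterion D K) ∧
    (0.4194 < cc ∧ cc < 0.4195) ∧
    Tendsto (fun X : ℕ => (count (fun D => Adm D ∧ Proved D) X : ℝ) / (count Adm X : ℝ)) atTop
      (𝓝 cc) ∧
    (∃ (α : ℝ) (X₀ : ℕ), 0 < α ∧ ∀ X : ℕ, X₀ ≤ X → α * (X * (Real.log X) ^ (-(5 / 8) : ℝ)) ≤
      (count (fun D => Adm D ∧ Proved D) X : ℝ)) ∧
    ∀ k : ℕ, {D : ℤ | Adm D ∧ dim D = 2 * k ∧ Proved D}.Infinite := by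
  have hc2 := Pool.Agent.Y948.CQ.t_C2.2.2.2
  have hs : ((-1 : ℤ) = 1 ∨ (-1 : ℤ) = -1) := Or.inr rfl
  have h0 := Pool.Agent.Y17.X.prop_of hs (fun D => (Pool.Agent.Y687.MQ.matD D).det ≠ 0)
    fun D _ _ => Iff.rfl
  have h1 : Tendsto (fun X : ℕ => (count (fun D => Adm D ∧ Proved D) X : ℝ) / (count Adm X : ℝ))
      atTop (𝓝 cc) := by
    refine h0.congr fun X => ?_
    rw [count_eq X fun D hD => (proved_iff hD).symm, count_eq' X]
  refine ⟨fun D hD K _ _ hQ => criterion hD K hQ, hc2, h1, ?_, infinite_k⟩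
  obtain ⟨α, X₀, hα, h2⟩ := Pool.Agent.Y17.X.low hs
  have hcc : 0 < cc := Pool.Agent.Y948.CQ.t_C2.2.1
  refine Pool.Agent.Y17.X.low_of hcc hα X₀ (g := fun X => X * (Real.log X) ^ (-(5 / 8) : ℝ))
    (B := count Adm) (fun X hX => ?_) ?_ h1
  · have := h2 X hX
    rw [mul_assoc, count_eq' X] at this
    exact this
  · refine (Pool.Agent.Y17.X.base_atTop hs).congr fun X => ?_
    exact count_eq' X

end Pool.Agent.Results.MP_9ab903_nt.TwoPartX14Imaginary
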